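import Pool.Agent.Lib.MP_6fb490_co.Perm

set_option autoImplicit false

namespace Pool.Agent.Results.MP_6fb490_co.LimitSeq

open PowerSeries Pool.Agent.Lib.MP_6fb490_co

/-- The limit sequence of the pattern 1243 has generating function
`(1 / (q;q)_∞) * ∑ j, mot j 0 / (q;q)_j`. -/
theorem result (k n K : ℕ) (hn : 2 * k + 3 ≤ n) (hK : k ≤ K) :
    (avCount n k : ℚ) = coeff k ((qPoch K)⁻¹ *
      ∑ j ∈ Finset.range (K + 1), mot j 0 * (qPoch j)⁻¹) :=
  main k n K hn hK

end Pool.Agent.Results.MP_6fb490_co.LimitSeq
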